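import Pool.Agent.H887.BK.D3
import Pool.Agent.H333.BK.New

set_option autoImplicit false
set_option linter.unusedSectionVars false
set_option linter.unusedVariables false

/-! Proof of `S_NewP` of `Pool.Agent.H887.BK.D3`; adapted from the proof of `S_New` by helper333. -/

namespace Pool.Agent.H233.BK

open Pool.Agent.H425 Pool.Agent.H887.BK Pool.Agent.H333.BK

section seqs

variable {F : Type} [Field F] [CharZero F]

/-- the sequence given by Newton's recursion -/
noncomputable def cseqF (s : ℕ → F) : ℕ → F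
  | 0 => 1
  | (k + 1) => -(∑ i : Fin (k + 1), s (i.1 + 1) * cseqF s (k - i.1)) / ((k : F) + 1)
termination_by k => k
decreasing_by omega

theorem cseqF_zero (s : ℕ → F) : cseqF s 0 = 1 := by rw [cseqF]

theorem cseqF_succ (s : ℕ → F) (k : ℕ) : ((k : F) + 1) * cseqF s (k + 1) =
    -∑ i ∈ Finset.range (k + 1), s (i + 1) * cseqF s (k - i) := by
  have hk : (k : F) + 1 ≠ 0 := by exact_mod_cast Nat.succ_ne_zero k
  rw [cseqF, mul_div_cancel₀ _ hk, Finset.sum_range]

end seqs

theorem h_NewP : Pool.Agent.H887.BK.S_NewP := by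
  intro p d _ K R _ _ _ _ S m _ _ h St bb hd hm hH hdet
  have hp : p.Prime := Fact.out
  have hp0 : (p : ℚ_[p]) ≠ 0 := by exact_mod_cast hp.ne_zero
  have hq : 0 < d * (p - 1) := Nat.mul_pos hd (Nat.sub_pos_of_lt hp.one_lt)
  choose b hb1 hb2 using hH
  set Mt : ℕ → Matrix m m R := fun N => Matrix.of fun u v => (-(p : R)) ^ (h u + 1) * b N u v
    with hMt
  set e : ℕ → ℕ → R := fun N k => (cs (Mt N)).coeff k with he
  -- inverses
  have hinv : ∀ a : ℕ, 1 ≤ a → ∃ g : ℤ_[p], ((p : ℤ_[p]) ^ a - 1) * g = 1 := by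
    intro a ha
    have h1 : IsUnit (1 - (p : ℤ_[p]) ^ a) := by
      rcases IsLocalRing.isUnit_or_isUnit_one_sub_self ((p : ℤ_[p]) ^ a) with h | h
      · exfalso
        rw [isUnit_pow_iff (by omega)] at h
        exact PadicInt.p_nonunit h
      · exact h
    obtain ⟨g, hg⟩ := h1.exists_right_inv
    exact ⟨-g, by linear_combination hg⟩
  choose! G hG using hinv
  set T : ℕ → ℤ_[p] := fun a => St a * G a with hT
  have hT1 : ∀ a, 1 ≤ a → ∀ N, ∃ z, S.zp (T a) = ((Mt N) ^ a).trace + S.lam ^ N * z := by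
    intro a ha N
    obtain ⟨z, hz⟩ := hb2 N a ha
    refine ⟨S.zp (G a) * z, ?_⟩
    have h1 := congrArg S.zp (hG a ha)
    rw [map_mul, map_sub, map_pow, map_natCast, map_one] at h1
    rw [hT]
    simp only [map_mul]
    rw [hz]
    linear_combination (((Mt N) ^ a).trace) * h1
  have hT2 : ∀ a, 1 ≤ a → ((T a : ℤ_[p]) : ℚ_[p]) =
      (St a : ℚ_[p]) / ((p : ℚ_[p]) ^ a - 1) := by
    intro a ha
    have h1 := congrArg (fun x : ℤ_[p] => (x : ℚ_[p])) (hG a ha)
    simp only [PadicInt.coe_mul, PadicInt.coe_sub, PadicInt.coe_pow, PadicInt.coe_natCast,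
      PadicInt.coe_one] at h1
    have h2 : ((p : ℚ_[p]) ^ a - 1) ≠ 0 := fun h0 => by
      rw [h0, zero_mul] at h1
      exact zero_ne_one h1
    rw [hT]
    simp only [PadicInt.coe_mul]
    rw [eq_div_iff h2]
    linear_combination (St a : ℚ_[p]) * h1
  -- the sequence
  set s : ℕ → ℚ_[p] := fun a => (St a : ℚ_[p]) / (((p : ℚ_[p]) ^ a - 1) * (p : ℚ_[p]) ^ a) with hs
  set c : ℕ → ℚ_[p] := cseqF s with hc
  have hc0 : c 0 = 1 := cseqF_zero s
  have hcs : ∀ k : ℕ, ((k : ℚ_[p]) + 1) * c (k + 1) =
      -∑ i ∈ Finset.range (k + 1), s (i + 1) * c (k - i) := cseqF_succ s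
  have hCs : ∀ k : ℕ, ((k : ℚ_[p]) + 1) * ((p : ℚ_[p]) ^ (k + 1) * c (k + 1)) =
      -∑ i ∈ Finset.range (k + 1), ((St (i + 1) : ℚ_[p]) / ((p : ℚ_[p]) ^ (i + 1) - 1)) *
        ((p : ℚ_[p]) ^ (k - i) * c (k - i)) := by
    intro k
    have h1 : ((k : ℚ_[p]) + 1) * ((p : ℚ_[p]) ^ (k + 1) * c (k + 1)) =
        (p : ℚ_[p]) ^ (k + 1) * (((k : ℚ_[p]) + 1) * c (k + 1)) := by ring
    rw [h1, hcs, mul_neg, Finset.mul_sum]
    congr 1
    refine Finset.sum_congr rfl fun i hi => ?_
    rw [Finset.mem_range] at hi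
    have h2 : (p : ℚ_[p]) ^ (k + 1) = (p : ℚ_[p]) ^ (k - i) * (p : ℚ_[p]) ^ (i + 1) := by
      rw [← pow_add]; congr 1; omega
    have h3 : (p : ℚ_[p]) ^ (i + 1) ≠ 0 := pow_ne_zero _ hp0
    rw [h2, hs]
    simp only
    rw [← div_div]
    field_simp
  -- the main claim
  have main : ∀ k : ℕ, ∃ y : ℤ_[p], (y : ℚ_[p]) = (p : ℚ_[p]) ^ k * c k ∧
      (∀ N, ∃ z, S.zp y = e N k + S.lam ^ N * z) ∧ (Fintype.card m < k → y = 0) := by
    intro k
    induction k using Nat.strong_induction_on with
    | _ k ih =>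
      rcases k with _ | k
      · refine ⟨1, by rw [hc0]; simp, fun N => ⟨0, ?_⟩, fun hlt => absurd hlt (Nat.not_lt_zero _)⟩
        rw [he]
        simp only [cs_zero, map_one, mul_zero, add_zero]
      · have ih' : ∀ i, i ≤ k → ∃ y : ℤ_[p], (y : ℚ_[p]) = (p : ℚ_[p]) ^ i * c i ∧
            (∀ N, ∃ z, S.zp y = e N i + S.lam ^ N * z) ∧ (Fintype.card m < i → y = 0) :=
          fun i hi => ih i (by omega)
        choose! y hy1 hy2 hy3 using ih'
        set w : ℤ_[p] := -∑ i ∈ Finset.range (k + 1), T (i + 1) * y (k - i) with hw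
        have hwa : (w : ℚ_[p]) = ((k : ℚ_[p]) + 1) * ((p : ℚ_[p]) ^ (k + 1) * c (k + 1)) := by
          rw [hCs, hw, PadicInt.coe_neg, PadicInt.coe_sum]
          congr 1
          refine Finset.sum_congr rfl fun i hi => ?_
          have h1 := hT2 (i + 1) (by omega)
          have h2 := hy1 (k - i) (Nat.sub_le _ _)
          rw [PadicInt.coe_mul, h1, h2]
        have hwb : ∀ N, ∃ z, S.zp w = ((k : R) + 1) * e N (k + 1) + S.lam ^ N * z := by
          intro N
          have h1 : ∀ i, ∃ z, S.zp (T (i + 1)) = ((Mt N) ^ (i + 1)).trace + S.lam ^ N * z :=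
            fun i => hT1 (i + 1) (by omega) N
          have h2 : ∀ i, ∃ z, S.zp (y (k - i)) = e N (k - i) + S.lam ^ N * z :=
            fun i => hy2 (k - i) (Nat.sub_le _ _) N
          choose z1 hz1 using h1
          choose z2 hz2 using h2
          have h3 := newton (Mt N) k
          refine ⟨-∑ i ∈ Finset.range (k + 1), (((Mt N) ^ (i + 1)).trace * z2 i +
            z1 i * S.zp (y (k - i))), ?_⟩
          rw [hw, map_neg, map_sum]
          push_cast at h3
          have h4 : ((k : R) + 1) * e N (k + 1) = -∑ i ∈ Finset.range (k + 1),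
              ((Mt N) ^ (i + 1)).trace * e N (k - i) := h3
          rw [h4, mul_neg, Finset.mul_sum, ← neg_add, ← Finset.sum_add_distrib]
          congr 1
          refine Finset.sum_congr rfl fun i _ => ?_
          rw [map_mul]
          linear_combination S.zp (y (k - i)) * hz1 i + ((Mt N) ^ (i + 1)).trace * hz2 i
        by_cases hk : k + 1 ≤ Fintype.card m
        · have hu : IsUnit (((k + 1 : ℕ) : ℤ_[p])) := by
            rw [PadicInt.isUnit_iff, PadicInt.norm_natCast_eq_one_iff]
            exact (Nat.Prime.coprime_iff_not_dvd hp).2 fun hdv =>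
              absurd (Nat.le_of_dvd (by omega) hdv) (by omega)
          obtain ⟨g, hg⟩ := hu.exists_right_inv
          refine ⟨g * w, ?_, fun N => ?_, fun hlt => absurd hlt (by omega)⟩
          · have h1 := congrArg (fun x : ℤ_[p] => (x : ℚ_[p])) hg
            simp only [PadicInt.coe_mul, PadicInt.coe_natCast, PadicInt.coe_one] at h1
            rw [PadicInt.coe_mul, hwa]
            push_cast at h1 ⊢
            linear_combination ((p : ℚ_[p]) ^ (k + 1) * c (k + 1)) * h1
          · obtain ⟨z, hz⟩ := hwb N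
            have h1 := congrArg S.zp hg
            rw [map_mul, map_natCast, map_one] at h1
            push_cast at h1
            refine ⟨S.zp g * z, ?_⟩
            rw [map_mul, hz]
            linear_combination (e N (k + 1)) * h1
        · have hw0 : w = 0 := by
            refine eq_zero_of S fun N => ?_
            obtain ⟨z, hz⟩ := hwb N
            rw [hz, he]
            simp only
            rw [cs_big _ _ (by omega), mul_zero, zero_add]
            exact dvd_mul_right _ _
          refine ⟨0, ?_, fun N => ⟨0, ?_⟩, fun _ => rfl⟩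
          · rw [hw0, PadicInt.coe_zero] at hwa
            have h1 : ((k : ℚ_[p]) + 1) * ((p : ℚ_[p]) ^ (k + 1) * c (k + 1)) = 0 := hwa.symm
            have h2 : (k : ℚ_[p]) + 1 ≠ 0 := by exact_mod_cast Nat.succ_ne_zero k
            rw [(mul_eq_zero.1 h1).resolve_left h2]
            simp
          · rw [he]
            simp only
            rw [cs_big _ _ (by omega), map_zero, mul_zero, add_zero]
  choose y hy1 hy2 hy3 using main
  have hyc : ∀ k, y k = 0 ↔ c k = 0 := by
    intro k
    have h1 := hy1 k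
    constructor
    · intro h0
      rw [h0, PadicInt.coe_zero] at h1
      exact (mul_eq_zero.1 h1.symm).resolve_left (pow_ne_zero _ hp0)
    · intro h0
      rw [h0, mul_zero] at h1
      exact PadicInt.coe_eq_zero.1 h1
  have hval : ∀ k, c k ≠ 0 → ((y k).valuation : ℤ) = k + (c k).valuation := by
    intro k hk
    rw [← PadicInt.valuation_coe, hy1, Padic.valuation_mul (pow_ne_zero _ hp0) hk,
      Padic.valuation_pow, Padic.valuation_p, mul_one]
  have hek : ∀ N k, e N k = (-1) ^ k * ∑ s ∈ Finset.univ.powersetCard k,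
      S.lam ^ (d * (p - 1) * ∑ u ∈ s, (h u + 1)) *
        ((b N).submatrix (Subtype.val : {x // x ∈ s} → m) (Subtype.val : {x // x ∈ s} → m)).det := by
    intro N k
    rw [he]
    simp only
    rw [cs_coeff]
    congr 1
    refine Finset.sum_congr rfl fun s _ => ?_
    rw [hMt]
    simp only
    rw [minor, pow_mul, S.lam_pow]
  refine ⟨c, hc0, hcs, ?_, ?_, ?_⟩
  · intro k hk
    exact (hyc k).1 (hy3 k hk)
  · intro k j hk
    have hy0 : y k ≠ 0 := fun h0 => hk ((hyc k).1 h0)
    set E : ℕ := j * k + k - ∑ u, (j - h u) with hE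
    have hdv : S.lam ^ (d * (p - 1) * E) ∣ S.zp (y k) := by
      obtain ⟨z, hz⟩ := hy2 k (d * (p - 1) * E)
      rw [hz]
      refine dvd_add ?_ (dvd_mul_right _ _)
      rw [hek]
      refine Dvd.dvd.mul_left (Finset.dvd_sum fun s hs => ?_) _
      rw [Finset.mem_powersetCard] at hs
      refine Dvd.dvd.mul_right (pow_dvd_pow _ (Nat.mul_le_mul_left _ ?_)) _
      have := wt_lower h s j
      rw [hs.2] at this
      omega
    have h1 := val_ge S hq hy0 hdv
    have h2 := hval k hk
    have h3 : j * k + k ≤ (y k).valuation + ∑ u, (j - h u) := by omega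
    have h4 : ((j * k : ℕ) : ℤ) + k ≤ (y k).valuation + ((∑ u, (j - h u) : ℕ) : ℤ) := by
      exact_mod_cast h3
    rw [h2] at h4
    linarith
  · intro j
    set J := Finset.univ.filter (fun u => h u < j) with hJ
    set k := J.card with hk
    set E0 := ∑ u ∈ J, (h u + 1) with hE0
    obtain ⟨z, hz⟩ := hy2 k (d * (p - 1) * E0 + 1)
    set N := d * (p - 1) * E0 + 1 with hN
    set w' : R := (-1) ^ k * ∑ s ∈ Finset.univ.powersetCard k,
      S.lam ^ (d * (p - 1) * (∑ u ∈ s, (h u + 1) - E0)) *
        ((b N).submatrix (Subtype.val : {x // x ∈ s} → m)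
          (Subtype.val : {x // x ∈ s} → m)).det with hw'
    have hge : ∀ s ∈ Finset.univ.powersetCard k, s ≠ J → E0 < ∑ u ∈ s, (h u + 1) := by
      intro s hs hne
      rw [Finset.mem_powersetCard] at hs
      exact wt_strict h j s hs.2 hne
    have hew : e N k = S.lam ^ (d * (p - 1) * E0) * w' := by
      rw [hek, hw', mul_left_comm]
      refine congrArg (fun x => (-1) ^ k * x) ?_
      rw [Finset.mul_sum]
      refine Finset.sum_congr rfl fun s hs => ?_
      have h6 : E0 + (∑ u ∈ s, (h u + 1) - E0) = ∑ u ∈ s, (h u + 1) := by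
        by_cases hsJ : s = J
        · rw [hsJ]; omega
        · have := hge s hs hsJ; omega
      rw [← mul_assoc, ← pow_add, ← mul_add, h6]
    have hJmem : J ∈ Finset.univ.powersetCard k :=
      Finset.mem_powersetCard.2 ⟨Finset.subset_univ _, rfl⟩
    have hresw : S.res w' ≠ 0 := by
      rw [hw', map_mul, map_sum, Finset.sum_eq_single J]
      · rw [show ∑ u ∈ J, (h u + 1) - E0 = 0 from Nat.sub_self _, mul_zero, pow_zero, one_mul,
          map_pow, map_neg, map_one, RingHom.map_det]
        have e1 : S.res.mapMatrix ((b N).submatrix (Subtype.val : {x // x ∈ J} → m)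
            (Subtype.val : {x // x ∈ J} → m)) =
            bb.submatrix (Subtype.val : {x // x ∈ J} → m) (Subtype.val : {x // x ∈ J} → m) := by
          ext u v
          exact hb1 N u v
        rw [e1]
        have e2 : ∀ x, x ∈ J ↔ h x < j := fun x => by rw [hJ, Finset.mem_filter]; simp
        have e3 : bb.submatrix (Subtype.val : {x // x ∈ J} → m) (Subtype.val : {x // x ∈ J} → m) =
            (bb.submatrix (Subtype.val : {u : m // h u < j} → m)
              (Subtype.val : {u : m // h u < j} → m)).submatrix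
              (Equiv.subtypeEquivRight e2) (Equiv.subtypeEquivRight e2) := by
          ext u v
          rfl
        rw [e3, Matrix.det_submatrix_equiv_self]
        exact mul_ne_zero (pow_ne_zero _ (neg_ne_zero.2 one_ne_zero)) (hdet j)
      · intro s hs hne
        have := hge s hs hne
        rw [map_mul, map_pow, S.res_lam, zero_pow, zero_mul]
        exact (Nat.mul_pos hq (by omega)).ne'
      · intro hn
        exact absurd hJmem hn
    have hfin := val_eq S hq (y := y k) (E := E0) (w' := w' + S.lam * z)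
      (by
        have h5 : S.res (w' + S.lam * z) = S.res w' := by
          rw [RingHom.map_add, RingHom.map_mul S.res S.lam z, S.res_lam, zero_mul, add_zero]
        rw [h5]; exact hresw)
      (by rw [hz, hew, hN, pow_succ]; ring)
    have hck : c k ≠ 0 := fun h0 => hfin.1 ((hyc k).2 h0)
    refine ⟨hck, ?_⟩
    have h1 := hval k hck
    rw [hfin.2] at h1
    have h2 : E0 = ∑ u ∈ J, h u + k := by
      rw [hE0, Finset.sum_add_distrib, Finset.sum_const, smul_eq_mul, mul_one]
    rw [h2] at h1
    push_cast at h1 ⊢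
    linarith

end Pool.Agent.H233.BK
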